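import Pool.Agent.Helper76.GT.St

/-!
# MP_b731ff_al, project GT, module FDM: finite dimensionality
-/

set_option autoImplicit false

namespace Pool.Agent.Helper27.GT

open Pool.Agent.Helper76.GT Filter
open scoped Pointwise

universe u

section

variable {H : Type u} [Group H] [DecidableEq H]

private lemma fdm_mono {S : Finset H} (hS : Gen S) {m n : ℕ} (h : m ≤ n) :
    (S ^ m).card ≤ (S ^ n).card :=
  Finset.card_le_card (Finset.pow_subset_pow_right hS.one h)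

private lemma fdm_pos {S : Finset H} (hS : Gen S) (n : ℕ) : 0 < ((S ^ n).card : ℝ) := by
  have h1 : (1 : ℕ) ≤ (S ^ n).card := by
    have := fdm_mono hS (Nat.zero_le n)
    simpa using this
  exact_mod_cast h1

/-- Lipschitz functions vanishing at `1` grow linearly -/
private lemma fdm_lin {S : Finset H} (f : H → ℝ) (C : ℝ) (h1 : f 1 = 0)
    (hC : ∀ x : H, ∀ s ∈ S, |f (x * s) - f x| ≤ C) :
    ∀ n : ℕ, ∀ x ∈ S ^ n, |f x| ≤ C * n := by
  intro n
  induction n with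
  | zero =>
    intro x hx
    rw [pow_zero, Finset.mem_one] at hx
    simp [hx, h1]
  | succ n ih =>
    intro x hx
    rw [pow_succ, Finset.mem_mul] at hx
    obtain ⟨y, hy, s, hs, rfl⟩ := hx
    have h2 := ih y hy
    have h3 := hC y s hs
    have h4 : |f (y * s)| ≤ |f (y * s) - f y| + |f y| := by
      have := abs_add_le (f (y * s) - f y) (f y)
      simpa using this
    push_cast
    linarith

theorem pFDM (H : Type u) [Group H] [DecidableEq H] (h1 : GRA H) (h2 : KEY H) (h3 : SCL) :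
    FDM H := by
  intro S hS hpg
  obtain ⟨C₀, d, hfr⟩ := hpg
  obtain ⟨t, ht⟩ : ∃ t : ℝ, t = Real.log 8 := ⟨_, rfl⟩
  have ht0 : 0 < t := by rw [ht]; exact Real.log_pos (by norm_num)
  obtain ⟨κ, hκ⟩ : ∃ κ : ℝ, κ = Real.exp (t * (3 * d + 3)) := ⟨_, rfl⟩
  have hκ0 : 0 < κ := by rw [hκ]; exact Real.exp_pos _
  obtain ⟨l, hl1, hL⟩ : ∃ l : ℕ, 1 ≤ l ∧ 16 * κ ^ 3 * (S.card : ℝ) ≤ 64 ^ l := by
    refine ⟨⌈16 * κ ^ 3 * (S.card : ℝ)⌉₊ + 1, by omega, ?_⟩
    have h4 : 16 * κ ^ 3 * (S.card : ℝ) ≤ ((⌈16 * κ ^ 3 * (S.card : ℝ)⌉₊ + 1 : ℕ) : ℝ) := by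
      refine (Nat.le_ceil _).trans ?_
      push_cast
      linarith
    refine h4.trans ?_
    have h5 : ∀ n : ℕ, (n : ℝ) ≤ 64 ^ n := by
      intro n
      exact_mod_cast (Nat.lt_pow_self (by norm_num : 1 < 64)).le
    exact h5 _
  obtain ⟨J, hJ⟩ : ∃ J : ℝ, J = κ ^ (l + 1) := ⟨_, rfl⟩
  have hJ0 : 0 < J := by rw [hJ]; positivity
  refine ⟨⌈2 * κ * J⌉₊, ?_⟩
  intro N f hind hharm hlip hf1
  rcases Nat.eq_zero_or_pos N with hN | hN
  · omega
  have hNR : (0 : ℝ) < (N : ℝ) := by exact_mod_cast hN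
  choose Cf hCf using hlip
  set C : ℝ := ∑ i, |Cf i| with hC
  have hC0 : 0 ≤ C := Finset.sum_nonneg fun i _ => abs_nonneg _
  have hCi : ∀ i, Cf i ≤ C := fun i => (le_abs_self _).trans
    (Finset.single_le_sum (f := fun i => |Cf i|) (fun i _ => abs_nonneg _) (Finset.mem_univ i))
  have hlin : ∀ i, ∀ n : ℕ, ∀ x ∈ S ^ n, |f i x| ≤ (C + 1) * n := by
    intro i n x hx
    have h4 := fdm_lin (f i) C (hf1 i) (fun x s hs => (hCf i x s hs).trans (hCi i)) n x hx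
    have h5 : (0 : ℝ) ≤ (n : ℝ) := Nat.cast_nonneg n
    linarith
  obtain ⟨-, g2, g3⟩ := h1 S hS N f
  obtain ⟨R₀, hR₀⟩ := g2 hind
  obtain ⟨k1, k2⟩ := h2 S hS N f hN
  have hpow : ∀ j : ℕ, R₀ ≤ j → R₀ ≤ 8 ^ j := fun j hj =>
    hj.trans (Nat.lt_pow_self (by norm_num : 1 < 8)).le
  have hdet : ∀ R : ℕ, R₀ ≤ R → 0 < (gram S f R).det := fun R hR => (hR₀ R hR).det_pos
  set A : ℕ → ℝ := fun j => Real.log ((S ^ (8 ^ j)).card : ℝ) with hA
  set B : ℕ → ℝ := fun j => Real.log ((gram S f (8 ^ j)).det) / N with hB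
  have hAmono : Monotone A := by
    intro j k hjk
    apply Real.log_le_log (fdm_pos hS _)
    exact_mod_cast fdm_mono hS (Nat.pow_le_pow_right (by norm_num) hjk)
  have hA0 : 0 ≤ A 0 := by
    apply Real.log_nonneg
    have h4 := fdm_pos hS (8 ^ 0)
    exact_mod_cast h4
  have hBmono : ∀ j k, R₀ ≤ j → j ≤ k → B j ≤ B k := by
    intro j k hj hjk
    simp only [hB]
    apply div_le_div_of_nonneg_right _ hNR.le
    apply Real.log_le_log (hdet _ (hpow j hj))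
    exact k1 _ _ (Nat.pow_le_pow_right (by norm_num) hjk) (hR₀ _ (hpow k (hj.trans hjk)))
  -- frequently
  have hfreq : ∃ᶠ m : ℕ in atTop, A m ≤ t * d * m + (Real.log C₀ + t * d) ∧
      B m ≤ t * (d + 2) * m +
        (Real.log (N.factorial : ℝ) / N + 2 * Real.log (C + 1) + (Real.log C₀ + t * d)) := by
    rw [frequently_atTop] at hfr ⊢
    intro M
    obtain ⟨n, hn, hcard⟩ := hfr (8 ^ (max M R₀))
    have hn1 : 1 ≤ n := le_trans (Nat.one_le_pow _ _ (by norm_num)) hn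
    set m : ℕ := Nat.log 8 n with hm
    have hm1 : 8 ^ m ≤ n := Nat.pow_log_le_self 8 (by omega)
    have hm2 : n < 8 ^ (m + 1) := Nat.lt_pow_succ_log_self (by norm_num) n
    have hm3 : max M R₀ ≤ m := by
      rw [hm]
      exact Nat.le_log_of_pow_le (by norm_num) hn
    have hAm : A m ≤ t * d * m + (Real.log C₀ + t * d) := by
      have e1 : ((S ^ (8 ^ m)).card : ℝ) ≤ (C₀ : ℝ) * (n : ℝ) ^ d := by
        have := (fdm_mono hS hm1).trans hcard
        exact_mod_cast this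
      have e2 : 0 < ((S ^ (8 ^ m)).card : ℝ) := fdm_pos hS _
      have hnR : (0 : ℝ) < (n : ℝ) := by exact_mod_cast hn1
      have e3 : (C₀ : ℝ) ≠ 0 := by
        intro h0
        rw [h0, zero_mul] at e1
        linarith
      have e4 : A m ≤ Real.log ((C₀ : ℝ) * (n : ℝ) ^ d) := Real.log_le_log e2 e1
      rw [Real.log_mul e3 (pow_ne_zero _ hnR.ne'), Real.log_pow] at e4
      have e5 : Real.log n ≤ (m + 1) * t := by
        have e6 : (n : ℝ) ≤ 8 ^ (m + 1) := by exact_mod_cast hm2.le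
        have e7 := Real.log_le_log hnR e6
        rw [Real.log_pow] at e7
        rw [← ht] at e7
        push_cast at e7
        exact e7
      have e8 : (d : ℝ) * Real.log n ≤ d * ((m + 1) * t) :=
        mul_le_mul_of_nonneg_left e5 (Nat.cast_nonneg d)
      nlinarith
    refine ⟨m, (le_max_left _ _).trans hm3, hAm, ?_⟩
    have hmR : R₀ ≤ 8 ^ m := hpow m ((le_max_right _ _).trans hm3)
    have e1 := g3 (C + 1) (8 ^ m) (by linarith) hlin
    have e2 := hdet _ hmR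
    have e3 : 0 < ((S ^ (8 ^ m)).card : ℝ) := fdm_pos hS _
    have e4 := Real.log_le_log e2 e1
    have hfac : (0 : ℝ) < (N.factorial : ℝ) := by exact_mod_cast Nat.factorial_pos N
    have hC1 : (0 : ℝ) < C + 1 := by linarith
    have h8 : (0 : ℝ) < ((8 ^ m : ℕ) : ℝ) := by positivity
    rw [Real.log_mul hfac.ne' (by positivity), Real.log_pow, Real.log_mul (by positivity) e3.ne',
      Real.log_pow, Real.log_mul hC1.ne' h8.ne'] at e4
    have e5 : Real.log (((8 ^ m : ℕ) : ℝ)) = m * t := by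
      push_cast
      rw [Real.log_pow, ← ht]
    rw [e5] at e4
    have e6 : B m ≤ (Real.log (N.factorial : ℝ) + N * ((2 : ℕ) * (Real.log (C + 1) + m * t) +
        A m)) / N := div_le_div_of_nonneg_right e4 hNR.le
    have e7 : (Real.log (N.factorial : ℝ) + N * ((2 : ℕ) * (Real.log (C + 1) + m * t) +
        A m)) / N = Real.log (N.factorial : ℝ) / N + (2 * (Real.log (C + 1) + m * t) + A m) := by
      field_simp
      push_cast
      ring
    rw [e7] at e6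
    nlinarith
  obtain ⟨j, hj, s1, s2, s3⟩ := h3 A B t _ _ d l R₀ ht0 hAmono hA0 hBmono hfreq
  -- the scale
  have hexpA : ∀ j, ((S ^ (8 ^ j)).card : ℝ) = Real.exp (A j) := fun j =>
    (Real.exp_log (fdm_pos hS _)).symm
  have hLa : 8 ^ l * 8 ^ j = 8 ^ (j + l) := by rw [pow_add, mul_comm]
  have hc1 : ((S ^ (7 * 8 ^ j)).card : ℝ) ≤ κ * ((S ^ (8 ^ j)).card : ℝ) := by
    have e1 : ((S ^ (7 * 8 ^ j)).card : ℝ) ≤ ((S ^ (8 ^ (j + 1))).card : ℝ) := by
      have : 7 * 8 ^ j ≤ 8 ^ (j + 1) := by rw [pow_succ]; omega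
      exact_mod_cast fdm_mono hS this
    refine e1.trans ?_
    rw [hexpA, hexpA, hκ, ← Real.exp_add]
    apply Real.exp_le_exp.2
    linarith
  have hc2 : ((S ^ (8 ^ l * 8 ^ j + 8 ^ j)).card : ℝ) ≤ J * ((S ^ (8 ^ j)).card : ℝ) := by
    have e1 : ((S ^ (8 ^ l * 8 ^ j + 8 ^ j)).card : ℝ) ≤ ((S ^ (8 ^ (j + l + 1))).card : ℝ) := by
      have e2 : 8 ^ j ≤ 8 ^ (j + l) := Nat.pow_le_pow_right (by norm_num) (by omega)
      have : 8 ^ l * 8 ^ j + 8 ^ j ≤ 8 ^ (j + l + 1) := by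
        rw [hLa, pow_succ]; omega
      exact_mod_cast fdm_mono hS this
    refine e1.trans ?_
    have e3 : J = Real.exp ((l + 1) * (t * (3 * d + 3))) := by
      rw [hJ, hκ, ← Real.exp_nat_mul]
      push_cast
      ring_nf
    rw [hexpA, hexpA, e3, ← Real.exp_add]
    apply Real.exp_le_exp.2
    linarith
  have h8j : R₀ ≤ 8 ^ j := hpow j hj
  have h8jl : R₀ ≤ 8 ^ (j + l) := hpow _ (by omega)
  have hpd4 : (gram S f (4 * (8 ^ l * 8 ^ j))).PosDef := by
    apply hR₀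
    rw [hLa]
    omega
  have h6l : 6 ≤ 8 ^ l := by
    calc 6 ≤ 8 ^ 1 := by norm_num
      _ ≤ 8 ^ l := Nat.pow_le_pow_right (by norm_num) hl1
  have m1 := k2 hharm (8 ^ j) (8 ^ l) κ J (Nat.one_le_pow _ _ (by norm_num)) h6l hc1 hc2 hpd4
  rw [hLa] at m1
  have m2 : (gram S f (4 * 8 ^ (j + l))).det ≤ (gram S f (8 ^ (j + l + 1))).det := by
    apply k1 _ _ _ (hR₀ _ (hpow _ (by omega)))
    rw [pow_succ (n := j + l)]
    omega
  have hd0 : 0 < (gram S f (8 ^ (j + l))).det := hdet _ h8jl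
  have hd1 : 0 < (gram S f (8 ^ (j + l + 1))).det := hdet _ (hpow _ (by omega))
  have m3 : (gram S f (8 ^ (j + l + 1))).det ≤ κ ^ N * (gram S f (8 ^ (j + l))).det := by
    have e1 : Real.log ((gram S f (8 ^ (j + l + 1))).det) ≤
        N * (t * (3 * d + 3)) + Real.log ((gram S f (8 ^ (j + l))).det) := by
      simp only [hB] at s3
      rw [← sub_div, div_le_iff₀ hNR] at s3
      linarith
    have e2 := Real.exp_le_exp.2 e1
    rw [Real.exp_log hd1, Real.exp_add, Real.exp_log hd0, Real.exp_nat_mul, ← hκ] at e2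
    exact e2
  have hcS : (0 : ℝ) ≤ (S.card : ℝ) := Nat.cast_nonneg _
  obtain ⟨q, hq⟩ : ∃ q : ℝ, q = (S.card : ℝ) := ⟨_, rfl⟩
  rw [← hq] at m1 hcS hL
  obtain ⟨X, hX⟩ : ∃ X : ℝ, X = 8 * κ ^ 2 * q / (((8 ^ l : ℕ)) : ℝ) ^ 2 + J / N := ⟨_, rfl⟩
  have hX0 : 0 ≤ X := by rw [hX]; positivity
  rw [← hX] at m1
  have hXN : 0 ≤ X ^ N := pow_nonneg hX0 N
  have m4 : (gram S f (8 ^ (j + l))).det ≤ (X * κ) ^ N * (gram S f (8 ^ (j + l))).det := by
    calc (gram S f (8 ^ (j + l))).det ≤ X ^ N * (gram S f (4 * 8 ^ (j + l))).det := m1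
      _ ≤ X ^ N * (κ ^ N * (gram S f (8 ^ (j + l))).det) :=
        mul_le_mul_of_nonneg_left (m2.trans m3) hXN
      _ = (X * κ) ^ N * (gram S f (8 ^ (j + l))).det := by rw [mul_pow]; ring
  have m5 : 1 ≤ (X * κ) ^ N := by
    by_contra hlt
    push Not at hlt
    have := mul_lt_mul_of_pos_right hlt hd0
    linarith
  have m6 : 1 ≤ X * κ := by
    by_contra hlt
    push Not at hlt
    have := pow_lt_one₀ (mul_nonneg hX0 hκ0.le) hlt (by omega : N ≠ 0)
    linarith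
  have m7 : 8 * κ ^ 2 * q / (((8 ^ l : ℕ)) : ℝ) ^ 2 * κ ≤ 1 / 2 := by
    have e1 : (((8 ^ l : ℕ)) : ℝ) ^ 2 = 64 ^ l := by
      push_cast
      rw [← pow_mul, mul_comm l 2, pow_mul]
      norm_num
    rw [e1, div_mul_eq_mul_div, div_le_iff₀ (by positivity)]
    nlinarith
  have m8 : 1 / 2 ≤ J / N * κ := by
    rw [hX, add_mul] at m6
    linarith
  have m9 : (N : ℝ) ≤ 2 * κ * J := by
    rw [div_mul_eq_mul_div, le_div_iff₀ hNR] at m8
    linarith
  have m10 : (N : ℝ) ≤ (⌈2 * κ * J⌉₊ : ℝ) := m9.trans (Nat.le_ceil _)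
  exact_mod_cast m10

end

end Pool.Agent.Helper27.GT
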