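import Pool.Agent.Helper79.GT.St1

/-! # GT MODULE WNS: the value, situational superko -/

set_option autoImplicit false

namespace Pool.Agent.Helper27.GT

open Pool.Agent.Helper19.SK
open Pool.Agent.Helper79.GS Pool.Agent.Helper79.GT

private theorem rch_trans {P : Type} {A : Arena P} {b x y : P} {k l : ℕ} (h1 : Rch A b k x)
    (h2 : Rch A x l y) : Rch A b (k + l) y := by
  induction h2 with
  | refl => exact h1
  | rev l c x' y' _ h3 h4 ih => exact Rch.rev _ c x' y' ih h3 h4
  | irr l c x' y' _ h3 h4 ih => exact Rch.irr _ c x' y' ih h3 h4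

private theorem rch_symm {P : Type} {A : Arena P} {b x : P} {k : ℕ} (h : Rch A b k x) (hk : k = 0) :
    Rch A x 0 b := by
  induction h with
  | refl => exact Rch.refl
  | rev k c x' y' _ h3 h4 ih =>
    have h5 : Rch A y' 0 x' := Rch.rev 0 (!c) y' x' Rch.refl h4 (by rw [Bool.not_not]; exact h3)
    have h6 := rch_trans h5 (ih hk)
    simpa using h6
  | irr k c x' y' _ h3 h4 ih => omega

private theorem rch_loop {P : Type} {A : Arena P} {b : P} {l : ℕ} (h : Rch A b l b) :
    ∀ j : ℕ, Rch A b (j * l) b := by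
  intro j
  induction j with
  | zero => rw [zero_mul]; exact Rch.refl
  | succ j ih =>
    rw [add_mul, one_mul]
    exact rch_trans ih h

private theorem wns_eq {P : Type} (A : Arena P) (sk : Bool) (H₀ : Set (Bool × P)) (r : ℕ) :
    WNs A sk H₀ r = WstS A sk H₀ (ENs A sk H₀ r) := by
  cases r <;> rfl

/-- The board after an irreversible placement from the component of `b`. -/
private theorem away {P : Type} {A : Arena P} {b u b' x : P} {r l : ℕ} {c : Bool}
    (hBd : Bd A r b) (hu : Rch A b 0 u) (h1 : A.mv c u b') (h2 : ¬ A.mv (!c) b' u)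
    (h3 : Rch A b' l x) : ¬ Rch A b 0 x := by
  intro hx
  have h4 : Rch A b' (l + 0) b := rch_trans h3 (rch_symm hx rfl)
  have h5 : Rch A b (0 + 1) b' := Rch.irr 0 c u b' hu h1 h2
  have h6 := rch_loop (rch_trans h5 h4) (r + 1)
  have h7 := hBd _ _ h6
  have h8 : r + 1 ≤ (r + 1) * (0 + 1 + (l + 0)) := Nat.le_mul_of_pos_right _ (by omega)
  omega

private theorem vis_eq {P : Type} (H₀ : Set (Bool × P)) (c : Bool) (a b : P) :
    Vis true H₀ c a b = insert (c, b) (insert (!c, a) H₀) := by
  ext ⟨s, x⟩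
  unfold Vis
  simp only [Set.mem_setOf_eq, Set.mem_insert_iff, Prod.mk.injEq, forall_const]
  tauto

private theorem rv_ne {P : Type} {A : Arena P} (hSc : Sc A) {c : Bool} {b w : P}
    (h : rv A c b w) : w ≠ b := by
  rintro rfl
  cases c with
  | true => have h1 := hSc w w h; omega
  | false =>
    have h2 : rv A true w w := ⟨h.2, h.1⟩
    have h1 := hSc w w h2
    omega

/-- The comparison with `WstS`. -/
private theorem fin_cmp (hXLS : StXLS) (hBES : StBES) (hAHS : StAHS)
    {P : Type} [Finite P] {A : Arena P} (hSc : Sc A) (H₀ : Set (Bool × P))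
    (EX : Bool → P → Prop) (Cm : Set P) (b : P) (c : Bool) (hb : b ∈ Cm)
    (hcl : ∀ (c : Bool) (u v : P), u ∈ Cm → rv A c u v → v ∈ Cm)
    (hEX : ∀ (c' : Bool) (u : P), u ∈ Cm → ∀ H : Set (Bool × P),
      (∀ x, x ∉ Cm → ∀ s, ((s, x) ∈ H ↔ (s, x) ∈ insert (c, b) H₀)) →
      ((∃ b', A.mv c' u b' ∧ ¬ A.mv (!c') b' u ∧ (!c', b') ∉ H ∧
        ¬ MWs A true (insert (!c', b') H) false (!c') b') ↔ EX c' u)) :
    MWs A true (insert (c, b) H₀) false c b ↔ WstS A true H₀ EX c b := by
  by_cases ha : ahead A c b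
  · rw [hAHS P A hSc EX Cm (insert (c, b) H₀) hcl hEX c b (insert (c, b) H₀) hb
      (Set.mem_insert _ _) (fun _ _ _ => Iff.rfl) ha]
    unfold WstS
    rw [if_pos ha, vis_eq, Bool.not_not]
    refine or_congr Iff.rfl (or_congr Iff.rfl (exists_congr fun w => ?_))
    rw [vis_eq, Bool.not_not]
    have hne : (!c) ≠ c := by cases c <;> simp
    have h1 : (!c, w) ∉ (insert (c, b) H₀ : Set (Bool × P)) ↔ (!c, w) ∉ H₀ := by
      rw [Set.mem_insert_iff]
      simp [hne]
    rw [h1]
    constructor
    · rintro ⟨h2, h3, h4⟩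
      exact ⟨h2, h3, rv_ne hSc h2, h4⟩
    · rintro ⟨h2, h3, _, h4⟩
      exact ⟨h2, h3, h4⟩
  · rw [hBES P A hSc EX Cm (insert (c, b) H₀) hcl hEX c b (insert (c, b) H₀) false hb
      (Set.mem_insert _ _) (fun _ _ _ => Iff.rfl) ha]
    unfold WstS
    rw [if_neg ha, vis_eq]
    refine hXLS P A hSc EX _ _ c b ha (fun x hx _ => ?_) (fun x hx => ?_)
    · rw [Set.mem_insert_iff, Set.mem_insert_iff, Set.mem_insert_iff]
      simp [hx]
    · have hxb : x ≠ b := by
        rintro rfl
        split_ifs at hx <;> omega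
      rw [Set.mem_insert_iff, Set.mem_insert_iff, Set.mem_insert_iff]
      simp [hxb]

theorem hWNS (hLVL : StLVL) (hXLS : StXLS) (hLOS : StLOS) (hBES : StBES) (hAHS : StAHS) :
    Pool.Agent.Helper79.GT.StWNS := by
  have _ := hLVL
  intro P _ A hSc H₀ r
  induction r with
  | zero =>
    intro b c hBd
    rw [wns_eq]
    refine fin_cmp hXLS hBES hAHS hSc H₀ (ENs A true H₀ 0) {x | Rch A b 0 x} b c Rch.refl
      (fun c u v hu h => Rch.rev 0 c u v hu h.1 h.2) ?_
    intro c' u hu H hH
    constructor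
    · rintro ⟨b', h1, h2, -, -⟩
      have h3 := hBd _ _ (Rch.irr 0 c' u b' hu h1 h2)
      omega
    · intro h
      exact absurd h id
  | succ r IH =>
    intro b c hBd
    rw [wns_eq]
    refine fin_cmp hXLS hBES hAHS hSc H₀ (ENs A true H₀ (r + 1)) {x | Rch A b 0 x} b c Rch.refl
      (fun c u v hu h => Rch.rev 0 c u v hu h.1 h.2) ?_
    intro c' u hu H hH
    show _ ↔ ∃ b', A.mv c' u b' ∧ ¬ A.mv (!c') b' u ∧ (!c', b') ∉ H₀ ∧
      ¬ WNs A true H₀ r (!c') b'
    refine exists_congr fun b' => ?_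
    by_cases h1 : A.mv c' u b'
    · by_cases h2 : A.mv (!c') b' u
      · simp [h2]
      · have haway : ∀ l x, Rch A b' l x → ¬ Rch A b 0 x := fun l x h3 =>
          away hBd hu h1 h2 h3
        have hagree : ∀ l x, Rch A b' l x → ∀ s, ((s, x) ∈ H ↔ (s, x) ∈ H₀) := by
          intro l x h3 s
          have h4 := haway l x h3
          have h5 : x ≠ b := by
            rintro rfl
            exact h4 Rch.refl
          rw [hH x h4 s, Set.mem_insert_iff]
          simp [h5]
        have hBd' : Bd A r b' := by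
          intro l x h3
          have h4 : Rch A b (0 + 1 + l) x := rch_trans (Rch.irr 0 c' u b' hu h1 h2) h3
          have h5 := hBd _ _ h4
          omega
        have e1 : MWs A true (insert (!c', b') H) false (!c') b' ↔
            MWs A true (insert (!c', b') H₀) false (!c') b' := by
          refine hLOS P A true _ _ false (!c') b' fun l x h3 s => ?_
          rw [Set.mem_insert_iff, Set.mem_insert_iff, hagree l x h3 s]
        rw [e1, IH b' (!c') hBd', hagree 0 b' Rch.refl]
    · simp [h1]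

end Pool.Agent.Helper27.GT
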